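import Pool.Agent.KS6_47.Rogers.Diag

set_option autoImplicit false

namespace Pool.Agent.Results.MP_0db2df_lc.InfinitelyManyMinimal

open Pool.Agent.KS6_47.Rogers

/-- The class of `α` is a minimal element of the Rogers semilattice `R⁰ₙ(A)`. -/
def IsMinimal (n : ℕ) (A : Set (Set ℕ)) (α : ℕ → Set ℕ) : Prop :=
  CompNumbering n A α ∧ ∀ β : ℕ → Set ℕ, CompNumbering n A β → Red β α → Red α β

/-- `α ∘ ρ` is minimal as soon as `ρ` is limit computable, `α ∘ ρ = α' ∘ F` and `α'` is onto. -/
theorem minimal_of {A : Set (Set ℕ)} {α' : ℕ → Set ℕ}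
    (hr : Set.range α' = A) (hA : A.Infinite) :
    ∀ γ : ℕ → Set ℕ, Set.range γ = A → Red γ (fun x => α' (F x)) → Red (fun x => α' (F x)) γ := by
  rintro γ hγ ⟨g, hg, hgγ⟩
  obtain ⟨e, he⟩ := exists_index g hg
  -- the class numbers hit by `g` are unbounded
  have hunb : ∀ k, ∃ i, k < F (g i) := by
    intro k
    by_contra hcon
    push Not at hcon
    apply hA
    rw [← hγ]
    refine ((Set.finite_le_nat k).image α').subset ?_
    rintro _ ⟨i, rfl⟩
    exact ⟨F (g i), hcon i, (hgγ i).symm⟩
  have hmeet : ∀ k, e ≤ k → ∃ i, F (g i) = k := by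
    intro k hk
    obtain ⟨i, hi⟩ := hunb k
    obtain ⟨y, hy, hyk⟩ := meets hk ((he _).2 ⟨i, rfl⟩) hi
    obtain ⟨j, rfl⟩ := (he y).1 hy
    exact ⟨j, hyk⟩
  choose a ha using F_surj
  have hex : ∀ k, ∃ y, γ y = α' k := fun k => by
    have : α' k ∈ Set.range γ := by rw [hγ, ← hr]; exact ⟨k, rfl⟩
    exact this
  choose b hb using hex
  let la : List ℕ := (List.range e).map a
  let lb : List ℕ := (List.range e).map b
  let G : ℕ → ℕ := fun i => if i < e then la.getD i 0 else g (i - e)
  let Y : ℕ → ℕ := fun i => if i < e then lb.getD i 0 else i - e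
  have cget : ∀ l : List ℕ, Computable (fun i : ℕ => l.getD i 0) := fun l =>
    ((Primrec.list_getD 0).comp (Primrec.const l) Primrec.id).to_comp
  have csub : Computable (fun i : ℕ => i - e) :=
    (Primrec.nat_sub.comp Primrec.id (Primrec.const e)).to_comp
  have cc : ComputablePred (fun i : ℕ => i < e) :=
    PrimrecPred.computablePred (Primrec.nat_lt.comp Primrec.id (Primrec.const e))
  have hG : Computable G := ComputablePred.ite (cget la) (hg.comp csub) cc
  have hY : Computable Y := ComputablePred.ite (cget lb) csub cc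
  have hGY : ∀ i, α' (F (G i)) = γ (Y i) := by
    intro i
    by_cases hi : i < e
    · have h1 : G i = a i := by simp [G, la, hi]
      have h2 : Y i = b i := by simp [Y, lb, hi]
      rw [h1, h2, ha, hb]
    · have h1 : G i = g (i - e) := by simp [G, hi]
      have h2 : Y i = i - e := by simp [Y, hi]
      rw [h1, h2, hgγ]
  have hall : ∀ x, ∃ i, F x = F (G i) := by
    intro x
    by_cases hx : F x < e
    · refine ⟨F x, ?_⟩
      have h1 : G (F x) = a (F x) := by simp [G, la, hx]
      rw [h1, ha]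
    · obtain ⟨i, hi⟩ := hmeet (F x) (by omega)
      refine ⟨i + e, ?_⟩
      have h1 : G (i + e) = g i := by simp [G]
      rw [h1, hi]
  have hsearch : ∀ x, ∃ w : ℕ, fs w.unpair.1 x = fs w.unpair.1 (G w.unpair.2) := by
    intro x
    obtain ⟨i, hi⟩ := hall x
    obtain ⟨s, hs⟩ := F_eq_iff.1 hi
    exact ⟨Nat.pair s i, by simpa using hs⟩
  have hcp : ComputablePred (fun p : ℕ × ℕ =>
      fs p.2.unpair.1 p.1 = fs p.2.unpair.1 (G p.2.unpair.2)) := by
    refine Computable.computablePred ?_
    have U : Computable (fun p : ℕ × ℕ => p.2.unpair) := Computable.unpair.comp Computable.snd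
    exact (Primrec.eq (α := ℕ)).decide.to_comp.comp
      (primrec_fs.to_comp.comp (Computable.fst.comp U) Computable.fst)
      (primrec_fs.to_comp.comp (Computable.fst.comp U) (hG.comp (Computable.snd.comp U)))
  refine ⟨fun x => Y (Nat.find (hsearch x)).unpair.2, ?_, fun x => ?_⟩
  · exact hY.comp (Computable.snd.comp (Computable.unpair.comp (Computable.find hcp hsearch)))
  · have h := Nat.find_spec (hsearch x)
    have h' : F x = F (G (Nat.find (hsearch x)).unpair.2) := F_eq_iff.2 ⟨_, h⟩
    rw [← hGY, ← h']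

/-- For `n ≥ 2` the Rogers semilattice of a `Σ⁰ₙ`-computable family `A` has exactly one minimal
element if `A` is finite and infinitely many if `A` is infinite; in the latter case there is even
a uniformly `Σ⁰ₙ`-computable sequence `μ 0, μ 1, …` of minimal numberings none of which reduces to
another one. -/
theorem result (n : ℕ) (hn : 2 ≤ n) (A : Set (Set ℕ)) (hA : ∃ α, CompNumbering n A α) :
    (A.Finite → ∃ α, IsMinimal n A α ∧ ∀ β, IsMinimal n A β → Red α β ∧ Red β α) ∧
    (A.Infinite → ∃ μ : ℕ → ℕ → Set ℕ, (∀ p, IsMinimal n A (μ p)) ∧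
      (∀ p q, p ≠ q → ¬ Red (μ p) (μ q)) ∧
      IsSigma n (fun z => z.unpair.2 ∈ μ z.unpair.1.unpair.1 z.unpair.1.unpair.2)) := by
  obtain ⟨α, hα⟩ := hA
  constructor
  · intro hf
    obtain ⟨β, hβ, h⟩ := finite_case hα hf
    refine ⟨β, ⟨hβ, fun γ hγ _ => h γ hγ.range_eq⟩, fun γ hγ => ?_⟩
    have h1 := h γ hγ.1.range_eq
    exact ⟨h1, hγ.2 β hβ h1⟩
  · intro hinf
    -- two distinct members
    obtain ⟨A₀, hA₀, A₁, hA₁, hne⟩ := hinf.nontrivial
    rw [← hα.range_eq] at hA₀ hA₁
    obtain ⟨i₀, rfl⟩ := hA₀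
    obtain ⟨i₁, rfl⟩ := hA₁
    have hsurj : ∀ p, Set.range (fun k => α (Pi i₀ i₁ (p, k))) = A := by
      intro p
      rw [← hα.range_eq]
      ext C
      constructor
      · rintro ⟨k, rfl⟩; exact ⟨_, rfl⟩
      · rintro ⟨i, rfl⟩
        obtain ⟨k, hk⟩ := Pi_surj i₀ i₁ p i
        exact ⟨k, by simp only [hk]⟩
    have hrange : ∀ p, Set.range (fun x => α (Pi i₀ i₁ (p, F x))) = A := by
      intro p
      rw [← hsurj p]
      ext C
      constructor
      · rintro ⟨x, rfl⟩; exact ⟨_, rfl⟩
      · rintro ⟨k, rfl⟩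
        obtain ⟨x, hx⟩ := F_surj k
        exact ⟨x, by simp only [hx]⟩
    have u1 : Computable (fun z : ℕ => z.unpair.1) := Computable.fst.comp Computable.unpair
    have u2 : Computable (fun z : ℕ => z.unpair.2) := Computable.snd.comp Computable.unpair
    have hlim : LimComp (fun z : ℕ => Pi i₀ i₁ (z.unpair.1, F z.unpair.2)) :=
      (limComp_Pi i₀ i₁).comp ((LimComp.of_computable u1).pair
        (limComp_F.comp (LimComp.of_computable u2)))
    have huni := sigma_comp_lim hn hα.sigma hlim
    refine ⟨fun p x => α (Pi i₀ i₁ (p, F x)), fun p => ⟨⟨hrange p, ?_⟩, ?_⟩, ?_, huni⟩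
    · have := huni.comp (f := fun z => Nat.pair (Nat.pair p z.unpair.1) z.unpair.2)
        (Primrec₂.natPair.to_comp.comp
          (Primrec₂.natPair.to_comp.comp (Computable.const p) u1) u2)
      exact this.congr fun z => by simp
    · intro β hβ hr
      exact minimal_of (hsurj p) hinf β hβ.range_eq hr
    · intro p q hpq
      exact Pi_diag hne hpq

end Pool.Agent.Results.MP_0db2df_lc.InfinitelyManyMinimal
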